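import Mathlib
import Pool.Agent.R953.BootInt

/-!
# MP_12274d_pr: the minimal bootstrap critical probability of Galton-Watson trees

We prove `f_r^{GW}(b) ≥ e^{-b/(r-1)}` for all `r ≥ 2` and `b ≥ r`.
-/

set_option autoImplicit false

open MeasureTheory ProbabilityTheory Filter
open scoped ENNReal NNReal Topology

namespace Pool.Agent.Results.MP_12274d_pr.MinimalThreshold

open Pool.Agent.R953.Boot Pool.Agent.R953.GW

/-- The mean of the offspring distribution `μ` is `b`. -/
def HasMean (μ : PMF ℕ) (b : ℝ) : Prop := HasSum (fun k : ℕ => (μ k).toReal * (k : ℝ)) b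

/-- The almost sure value of the critical probability of the Galton-Watson tree with offspring
distribution `μ` is `c`. -/
def HasCritical (μ : PMF ℕ) (r : ℕ) (c : ℝ) : Prop := ∀ᵐ T ∂(gw μ), pcrit (treeG T) r = c

/-- `f_r^{GW}(b)`: the infimum of the (almost surely constant) critical probabilities of the
Galton-Watson trees whose offspring distribution has mean `b` and does not charge `0`. -/
noncomputable def fGW (r : ℕ) (b : ℝ) : ℝ :=
  sInf {c : ℝ | ∃ μ : PMF ℕ, μ 0 = 0 ∧ HasMean μ b ∧ HasCritical μ r c}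

/-- Almost surely the tree is infinite if no vertex is childless. -/
lemma ae_infinite (μ : PMF ℕ) (h0 : μ 0 = 0) : ∀ᵐ T ∂(gw μ), {v | InT T v}.Infinite := by
  have h1 : ∀ᵐ T ∂(gw μ), ∀ v : List ℕ, T v ≠ 0 := by
    rw [ae_all_iff]
    intro v
    have h2 : (gw μ).map (fun T => T v) = μ.toMeasure := Measure.infinitePi_map_eval _ _
    have h3 : μ.toMeasure {0} = 0 := by
      rw [PMF.toMeasure_apply_singleton _ _ (MeasurableSet.singleton 0)]
      exact h0
    rw [← h2, Measure.map_apply (measurable_pi_apply v) (MeasurableSet.singleton 0)] at h3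
    rw [ae_iff]
    have h4 : {T : List ℕ → ℕ | ¬ T v ≠ 0} = (fun T : List ℕ → ℕ => T v) ⁻¹' {0} := by
      ext T
      simp
    rw [h4]
    exact h3
  filter_upwards [h1] with T hT
  rw [infinite_iff_InT]
  intro n
  refine ⟨List.replicate n 0, List.length_replicate, ?_⟩
  induction n with
  | zero => trivial
  | succ n ih =>
    rw [List.replicate_succ]
    exact ⟨ih, Nat.pos_of_ne_zero (hT _)⟩

/-- If some `k < r` has positive probability, the criterion holds for every `p < 1`. -/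
lemma small_k (μ : PMF ℕ) (r : ℕ) {k₀ : ℕ} (hk : k₀ < r) (hμ : μ k₀ ≠ 0) {p : ℝ} (hp0 : 0 ≤ p)
    (hp1 : p < 1) :
    ∃ y, 0 ≤ y ∧ y < 1 ∧ p + (1 - p) * ∑' k, (μ k).toReal * hh r k y ≤ y := by
  set m : ℝ := (μ k₀).toReal with hm
  have hm0 : 0 < m := ENNReal.toReal_pos hμ (μ.apply_ne_top k₀)
  have hm1 : m ≤ 1 := by
    rw [hm, ← ENNReal.toReal_one]
    exact ENNReal.toReal_mono ENNReal.one_ne_top (μ.coe_le_one k₀)
  have hq : 0 < 1 - p := by linarith
  have hy0 : 0 ≤ 1 - (1 - p) * m := by nlinarith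
  have hy1 : 1 - (1 - p) * m < 1 := by nlinarith
  refine ⟨1 - (1 - p) * m, hy0, hy1, ?_⟩
  set y : ℝ := 1 - (1 - p) * m with hy
  have hS : ∑' k, (μ k).toReal * hh r k y ≤ 1 - m := by
    have h1 : ∑' k, (μ k).toReal * (if k = k₀ then (0 : ℝ) else 1) = 1 - m := by
      have h2 : ∀ k, (μ k).toReal * (if k = k₀ then (0 : ℝ) else 1) =
          (μ k).toReal - (if k = k₀ then m else 0) := by
        intro k
        split_ifs with h
        · rw [h]; ring
        · ring
      simp_rw [h2]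
      rw [Summable.tsum_sub (summable_pmf μ) (hasSum_ite_eq k₀ m).summable, tsum_pmf,
        tsum_ite_eq]
    rw [← h1]
    refine Summable.tsum_le_tsum (fun k => ?_) ?_ ?_
    · apply mul_le_mul_of_nonneg_left _ ENNReal.toReal_nonneg
      split_ifs with h
      · rw [h, hh_lt _ _ _ hk]
      · exact hh_le_one hy0 hy1.le _ _
    · exact summable_pmf_mul μ (b := 1) fun k => by
        rw [abs_of_nonneg (hh_nonneg hy0 hy1.le _ _)]
        exact hh_le_one hy0 hy1.le _ _
    · exact summable_pmf_mul μ (b := 1) fun k => by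
        split_ifs <;> simp
  have h3 := mul_le_mul_of_nonneg_left hS hq.le
  calc p + (1 - p) * ∑' k, (μ k).toReal * hh r k y ≤ p + (1 - p) * (1 - m) := by linarith
    _ = y := by rw [hy]; ring

/-- the mean of the Dirac mass at `1` is `1` -/
lemma ne_one_of_mean {μ : PMF ℕ} {b : ℝ} (hb : HasMean μ b) (h1 : 1 < b) : μ 1 ≠ 1 := by
  intro h
  have hsupp : μ.support = {1} := (μ.apply_eq_one_iff 1).1 h
  have hz : ∀ k, k ≠ 1 → μ k = 0 := by
    intro k hk
    rw [μ.apply_eq_zero_iff, hsupp]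
    simpa using hk
  have h2 : HasSum (fun k : ℕ => (μ k).toReal * (k : ℝ)) ((μ 1).toReal * ((1 : ℕ) : ℝ)) := by
    apply hasSum_single 1
    intro k hk
    rw [hz k hk]
    simp
  have h3 := hb.unique h2
  rw [h] at h3
  simp at h3
  linarith

/-- The lower bound for every offspring distribution. -/
theorem lower_bound (r : ℕ) (hr : 2 ≤ r) (b : ℝ) (hb : (r : ℝ) ≤ b) (μ : PMF ℕ) (h0 : μ 0 = 0)
    (hmean : HasMean μ b) :
    ∀ᵐ T ∂(gw μ), Real.exp (-(b / (r - 1))) ≤ pcrit (treeG T) r := by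
  obtain ⟨s, rfl⟩ : ∃ s, r = s + 2 := ⟨r - 2, by omega⟩
  have hs : (0 : ℝ) < s + 1 := by positivity
  have hcast : (((s + 2 : ℕ) : ℝ) - 1) = s + 1 := by push_cast; ring
  rw [hcast]
  push_cast at hb
  have hb1 : 1 < b := by linarith
  have hμ1 := ne_one_of_mean hmean hb1
  have hx : 0 < b / (s + 1) := by positivity
  have hp0 : 0 < Real.exp (-(b / (s + 1))) := Real.exp_pos _
  have hp1 : Real.exp (-(b / (s + 1))) < 1 := by
    rw [Real.exp_lt_one_iff]
    linarith
  set p : unitInterval := ⟨Real.exp (-(b / (s + 1))), hp0.le, hp1.le⟩ with hp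
  have hy : ∃ y, 0 ≤ y ∧ y < 1 ∧ (p : ℝ) + (1 - p) * ∑' k, (μ k).toReal * hh (s + 2) k y ≤ y := by
    by_cases hc : ∀ k, k < s + 1 → μ k = 0
    · refine exists_y s μ hc hmean.summable hp0 hp1 ?_
      rw [hmean.tsum_eq]
      change _ ≤ -Real.log (Real.exp (-(b / (s + 1))))
      rw [Real.log_exp]
      linarith
    · push Not at hc
      obtain ⟨k, hk, hμk⟩ := hc
      exact small_k μ (s + 2) (by omega) hμk hp0.le hp1
  obtain ⟨y, hy0, hy1, hy⟩ := hy
  filter_upwards [criterion μ hμ1 p hp1 hr hy0 hy1 hy, ae_infinite μ h0] with T hT hinf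
  exact le_pcrit (treeG T) (s + 2) (fun _ => p) (fun x _ hx => ⟨0, hx.le⟩) fun _ => hT hinf

lemma pcrit_le_one {V : Type*} [Countable V] (G : SimpleGraph V) (r : ℕ) : pcrit G r ≤ 1 := by
  apply csInf_le
  · refine ⟨0, ?_⟩
    rintro x ⟨p, rfl, -⟩
    exact p.2.1
  · exact ⟨1, rfl, by rw [percProb_one]; exact one_pos⟩

/-- If some `k < r` has positive probability, the critical probability is `1`. -/
lemma critical_one (r : ℕ) (hr : 2 ≤ r) (μ : PMF ℕ) (h0 : μ 0 = 0) (hμ1 : μ 1 ≠ 1) {k₀ : ℕ}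
    (hk : k₀ < r) (hμ : μ k₀ ≠ 0) : HasCritical μ r 1 := by
  have hlt : ∀ n : ℕ, (1 : ℝ) / (n + 1) ≤ 1 := by
    intro n
    rw [div_le_one (by positivity)]
    have : (0 : ℝ) ≤ n := Nat.cast_nonneg n
    linarith
  set u : ℕ → unitInterval := fun n => ⟨1 - 1 / (n + 1), by linarith [hlt n], by
    have : (0 : ℝ) < 1 / (n + 1) := by positivity
    linarith⟩ with hu
  have hu1 : ∀ n, ((u n : unitInterval) : ℝ) < 1 := by
    intro n
    have : (0 : ℝ) < 1 / (n + 1) := by positivity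
    change (1 : ℝ) - 1 / (n + 1) < 1
    linarith
  have hall : ∀ᵐ T ∂(gw μ), ∀ n, {v | InT T v}.Infinite → percProb (treeG T) r (u n) = 0 := by
    rw [ae_all_iff]
    intro n
    obtain ⟨y, hy0, hy1, hy⟩ := small_k μ r hk hμ (u n).2.1 (hu1 n)
    exact criterion μ hμ1 (u n) (hu1 n) hr hy0 hy1 hy
  filter_upwards [hall, ae_infinite μ h0] with T hT hinf
  apply le_antisymm (pcrit_le_one _ _)
  refine le_pcrit (treeG T) r u (fun x _ hx => ?_) fun n => hT n hinf
  obtain ⟨n, hn⟩ := exists_nat_one_div_lt (sub_pos.2 hx)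
  refine ⟨n, ?_⟩
  change x ≤ 1 - 1 / ((n : ℝ) + 1)
  linarith

/-- a distribution with mean `b` on two points, one of which is `1` -/
lemma exists_dist (b : ℝ) (hb : 1 < b) : ∃ μ : PMF ℕ, μ 0 = 0 ∧ HasMean μ b ∧ μ 1 ≠ 0 := by
  obtain ⟨N, hN⟩ := exists_nat_gt b
  have hN1 : (1 : ℝ) < N := hb.trans hN
  have hN1' : 1 < N := by exact_mod_cast hN1
  set θ : ℝ := (b - 1) / (N - 1) with hθ
  have hθ0 : 0 ≤ θ := div_nonneg (by linarith) (by linarith)
  have hθ1 : θ < 1 := by
    rw [hθ, div_lt_one (by linarith)]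
    linarith
  set f : ℕ → ℝ≥0∞ := fun k => if k = 1 then ENNReal.ofReal (1 - θ) else
    if k = N then ENNReal.ofReal θ else 0 with hf
  have hsum : ∑ k ∈ ({1, N} : Finset ℕ), f k = 1 := by
    rw [Finset.sum_pair hN1'.ne]
    simp only [hf, if_true, hN1'.ne', if_false]
    rw [← ENNReal.ofReal_add (by linarith) hθ0]
    simp
  have hout : ∀ k, k ∉ ({1, N} : Finset ℕ) → f k = 0 := by
    intro k hk
    simp only [Finset.mem_insert, Finset.mem_singleton, not_or] at hk
    simp only [hf, hk.1, hk.2, if_false]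
  refine ⟨PMF.ofFinset f {1, N} hsum hout, ?_, ?_, ?_⟩
  · rw [PMF.ofFinset_apply]
    apply hout
    simp only [Finset.mem_insert, Finset.mem_singleton, not_or]
    omega
  · unfold HasMean
    have h1 : ∑ k ∈ ({1, N} : Finset ℕ), (f k).toReal * (k : ℝ) = b := by
      rw [Finset.sum_pair hN1'.ne]
      simp only [hf, if_true, hN1'.ne', if_false]
      rw [ENNReal.toReal_ofReal (by linarith), ENNReal.toReal_ofReal hθ0, hθ]
      have : (N : ℝ) - 1 ≠ 0 := by linarith
      field_simp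
      push_cast
      ring
    rw [← h1]
    simp only [PMF.ofFinset_apply]
    apply hasSum_sum_of_ne_finset_zero
    intro k hk
    rw [hout k hk]
    simp
  · rw [PMF.ofFinset_apply]
    simp only [hf, if_true]
    rw [Ne, ENNReal.ofReal_eq_zero, not_le]
    linarith

/-- **MP_12274d_pr, Q1 (positive answer, with `c_r = 1`).** For all `r ≥ 2` and `b ≥ r`:
`f_r^{GW}(b) ≥ e^{-b/(r-1)}`, and for every offspring distribution `μ` with `μ 0 = 0` and mean
`b`, almost surely `p_c(T_μ, r) ≥ e^{-b/(r-1)}`. -/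
theorem result : ∀ r : ℕ, 2 ≤ r → ∀ b : ℝ, (r : ℝ) ≤ b →
    Real.exp (-(b / (r - 1))) ≤ fGW r b ∧
    ∀ μ : PMF ℕ, μ 0 = 0 → HasMean μ b →
      ∀ᵐ T ∂(gw μ), Real.exp (-(b / (r - 1))) ≤ pcrit (treeG T) r := by
  intro r hr b hb
  refine ⟨?_, fun μ h0 hmean => lower_bound r hr b hb μ h0 hmean⟩
  have hr' : (2 : ℝ) ≤ r := by exact_mod_cast hr
  have hb1 : 1 < b := by linarith
  apply le_csInf
  · obtain ⟨μ, h0, hmean, h1⟩ := exists_dist b hb1
    exact ⟨1, μ, h0, hmean, critical_one r hr μ h0 (ne_one_of_mean hmean hb1) (k₀ := 1)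
      (by omega) h1⟩
  · rintro c ⟨μ, h0, hmean, hc⟩
    obtain ⟨T, hT1, hT2⟩ := (hc.and (lower_bound r hr b hb μ h0 hmean)).exists
    rw [← hT1]
    exact hT2

end Pool.Agent.Results.MP_12274d_pr.MinimalThreshold
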